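import Mathlib

/-!
# The length of an `(A, C)`-commutative `n`-ary algebra

Every `k`-dimensional `(A, C)`-commutative `n`-ary algebra over `ℂ` has length at most the
generalised Fibonacci number `F_{N_{n,a}}(k)`.
-/

namespace Pool.Agent.Results.MP_dca5dd_al.LengthBound

universe u

section Defs

variable {n : ℕ} {V : Type u} [AddCommGroup V] [Module ℂ V]

/-- `(A, C)`-commutativity: swapping the arguments in two different positions of `A` changes the
sign of the product, swapping the arguments in two positions of `C` does not change it. -/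
def IsACCommutative (A C : Finset (Fin n)) (μ : MultilinearMap ℂ (fun _ : Fin n => V) V) :
    Prop :=
  (∀ i ∈ A, ∀ j ∈ A, i ≠ j → ∀ x : Fin n → V, μ (fun r => x (Equiv.swap i j r)) = - μ x) ∧
  (∀ i ∈ C, ∀ j ∈ C, i ≠ j → ∀ x : Fin n → V, μ (fun r => x (Equiv.swap i j r)) = μ x)

/-- `IsWord μ S l w`: the element `w` is (the value of) a word of length `l` in `S`. -/
inductive IsWord (μ : MultilinearMap ℂ (fun _ : Fin n => V) V) (S : Set V) : ℕ → V → Prop
  | basic : ∀ s ∈ S, IsWord μ S 1 s
  | op : ∀ (l : Fin n → ℕ) (w : Fin n → V), (∀ r, IsWord μ S (l r) (w r)) →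
      IsWord μ S (∑ r, l r) (μ w)

/-- `L_i(S)`: the span of the words of length at most `i`. -/
def L (μ : MultilinearMap ℂ (fun _ : Fin n => V) V) (S : Set V) (i : ℕ) : Submodule ℂ V :=
  Submodule.span ℂ {w | ∃ l, l ≤ i ∧ IsWord μ S l w}

/-- `S` generates the algebra: the union of the `L_i(S)` is everything. -/
def Generates (μ : MultilinearMap ℂ (fun _ : Fin n => V) V) (S : Set V) : Prop :=
  ∀ v : V, ∃ i, v ∈ L μ S i

/-- `l(S)`: the least `i ≥ 1` with `L_i(S)` the whole algebra. -/
noncomputable def setLength (μ : MultilinearMap ℂ (fun _ : Fin n => V) V) (S : Set V) : ℕ :=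
  sInf {i | 1 ≤ i ∧ L μ S i = ⊤}

/-- The length of the algebra: the supremum of `l(S)` over all finite generating sets `S`. -/
noncomputable def algLength (μ : MultilinearMap ℂ (fun _ : Fin n => V) V) : ℕ∞ :=
  ⨆ (S : Finset V) (_ : Generates μ (S : Set V)), (setLength μ (S : Set V) : ℕ∞)

/-- The generalised Fibonacci sequence `F_{N_{n,a}}` attached to
`N_{n,a} = 2 ^ (n - a + 1) * 3 * 5 * ... * p_a`: `F(m) = 1` for `m ≤ a` and
`F(m) = (n - a + 1) F(m - 1) + F(m - 2) + ... + F(m - a)` for `m > a`. -/
def genFib (n a : ℕ) : ℕ → ℕ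
  | m => if _h : m ≤ a then 1
      else (n - a + 1) * genFib n a (m - 1) + ∑ i : Fin (a - 1), genFib n a (m - 2 - i.val)
termination_by m => m
decreasing_by all_goals omega

/-- The parameter `a`: `|A|` if `|A| ≥ 2` and `1` if `|A| = 0`. -/
def aParam (A : Finset (Fin n)) : ℕ := if A.card = 0 then 1 else A.card

end Defs

section Fib

variable {n a : ℕ}

theorem genFib_of_le {m : ℕ} (h : m ≤ a) : genFib n a m = 1 := by
  rw [genFib]
  simp [h]

theorem genFib_of_lt {m : ℕ} (h : a < m) : genFib n a m =
    (n - a + 1) * genFib n a (m - 1) + ∑ i : Fin (a - 1), genFib n a (m - 2 - i.val) := by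
  conv_lhs => rw [genFib]
  simp [not_le.mpr h]

theorem genFib_pos (m : ℕ) : 1 ≤ genFib n a m := by
  induction m using Nat.strong_induction_on with
  | _ m ih =>
    by_cases h : m ≤ a
    · rw [genFib_of_le h]
    · push Not at h
      rw [genFib_of_lt h]
      have := ih (m - 1) (by omega)
      nlinarith [Nat.zero_le (∑ i : Fin (a - 1), genFib n a (m - 2 - i.val)),
        Nat.zero_le ((n - a) * genFib n a (m - 1))]

theorem genFib_mono_succ (m : ℕ) : genFib n a m ≤ genFib n a (m + 1) := by
  by_cases h : m + 1 ≤ a
  · rw [genFib_of_le h, genFib_of_le (by omega)]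
  · push Not at h
    rw [genFib_of_lt h]
    simp only [Nat.add_sub_cancel]
    nlinarith [Nat.zero_le (∑ i : Fin (a - 1), genFib n a (m + 1 - 2 - i.val)),
      Nat.zero_le ((n - a) * genFib n a m)]

theorem genFib_mono : Monotone (genFib n a) := monotone_nat_of_le_succ genFib_mono_succ

/-- The sum of `F(t + 1)` over a set of `b` indices `t < j` is at most
`F(j) + F(j - 1) + ... + F(j - b + 1)`. -/
theorem sum_le_top {F : ℕ → ℕ} (hF : Monotone F) (b : ℕ) :
    ∀ (j : ℕ) (T : Finset ℕ), (∀ t ∈ T, t < j) → T.card = b →
      ∑ t ∈ T, F (t + 1) ≤ ∑ i ∈ Finset.range b, F (j - i) := by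
  induction b with
  | zero =>
    intro j T _ hT
    rw [Finset.card_eq_zero] at hT
    simp [hT]
  | succ b ih =>
    intro j T hT hcard
    have hne : T.Nonempty := by
      rw [← Finset.card_pos, hcard]
      omega
    have hmax := T.max'_mem hne
    set t₀ := T.max' hne with ht₀
    have h1 : (T.erase t₀).card = b := by
      rw [Finset.card_erase_of_mem hmax, hcard]
      rfl
    have hj : t₀ < j := hT _ hmax
    have h2 : ∀ t ∈ T.erase t₀, t < j - 1 := by
      intro t ht
      rw [Finset.mem_erase] at ht
      have := T.le_max' t ht.2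
      omega
    have h3 := ih (j - 1) _ h2 h1
    rw [← Finset.add_sum_erase T _ hmax, Finset.sum_range_succ']
    have h4 : F (t₀ + 1) ≤ F (j - 0) := hF (by omega)
    have h5 : ∑ i ∈ Finset.range b, F (j - 1 - i) = ∑ i ∈ Finset.range b, F (j - (i + 1)) :=
      Finset.sum_congr rfl fun i _ => by congr 1; omega
    rw [h5] at h3
    omega

end Fib

section Lin

variable {n : ℕ} {V : Type u} [AddCommGroup V] [Module ℂ V]
  (μ : MultilinearMap ℂ (fun _ : Fin n => V) V)

/-- A multilinear map sends tuples from spans into a submodule as soon as it does so for tuples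
of generators. -/
theorem map_mem_of_span (s : Fin n → Set V) (P : Submodule ℂ V)
    (h : ∀ x : Fin n → V, (∀ r, x r ∈ s r) → μ x ∈ P) (x : Fin n → V)
    (hx : ∀ r, x r ∈ Submodule.span ℂ (s r)) : μ x ∈ P := by
  classical
  have key : ∀ T : Finset (Fin n), ∀ x : Fin n → V,
      (∀ r ∈ T, x r ∈ Submodule.span ℂ (s r)) → (∀ r ∉ T, x r ∈ s r) → μ x ∈ P := by
    intro T
    induction T using Finset.induction_on with
    | empty => exact fun x _ h2 => h x fun r => h2 r (by simp)
    | insert i T hi ih =>
      intro x h1 h2
      have hxi := h1 i (Finset.mem_insert_self i T)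
      have aux : ∀ y ∈ Submodule.span ℂ (s i), μ (Function.update x i y) ∈ P := by
        intro y hy
        induction hy using Submodule.span_induction with
        | mem y hy =>
          apply ih
          · intro r hr
            have hri : r ≠ i := by rintro rfl; exact hi hr
            rw [Function.update_of_ne hri]
            exact h1 r (Finset.mem_insert_of_mem hr)
          · intro r hr
            by_cases hri : r = i
            · subst hri
              rw [Function.update_self]
              exact hy
            · rw [Function.update_of_ne hri]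
              exact h2 r (by simp [hri, hr])
        | zero => rw [MultilinearMap.map_update_zero]; exact P.zero_mem
        | add y z _ _ hy hz => rw [MultilinearMap.map_update_add]; exact P.add_mem hy hz
        | smul c y _ hy => rw [MultilinearMap.map_update_smul]; exact P.smul_mem c hy
      have := aux (x i) hxi
      rwa [Function.update_eq_self] at this
  exact key Finset.univ x (fun r _ => hx r) (fun r hr => absurd (Finset.mem_univ r) hr)

theorem L_mono (S : Set V) : Monotone (L μ S) := by
  intro i j hij
  apply Submodule.span_mono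
  rintro w ⟨l, hl, hw⟩
  exact ⟨l, hl.trans hij, hw⟩

theorem L_mul (S : Set V) (t : Fin n → ℕ) (x : Fin n → V) (hx : ∀ r, x r ∈ L μ S (t r)) :
    μ x ∈ L μ S (∑ r, t r) := by
  refine map_mem_of_span μ (fun r => {w | ∃ l, l ≤ t r ∧ IsWord μ S l w}) _ ?_ x hx
  intro y hy
  choose l hl hw using hy
  exact Submodule.subset_span ⟨∑ r, l r, Finset.sum_le_sum fun r _ => hl r, IsWord.op l y hw⟩

theorem map_eq_zero_of_eq {A C : Finset (Fin n)} (hμ : IsACCommutative A C μ) {p q : Fin n}
    (hp : p ∈ A) (hq : q ∈ A) (hpq : p ≠ q) (x : Fin n → V) (hx : x p = x q) : μ x = 0 := by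
  have h1 := hμ.1 p hp q hq hpq x
  have h2 : (fun r => x (Equiv.swap p q r)) = x := by
    funext r
    by_cases h : r = p
    · rw [h, Equiv.swap_apply_left, hx]
    · by_cases h' : r = q
      · rw [h', Equiv.swap_apply_right, hx]
      · rw [Equiv.swap_apply_of_ne_of_ne h h']
  rw [h2] at h1
  have h3 : (2 : ℂ) • μ x = 0 := by
    rw [two_smul]
    nth_rewrite 1 [h1]
    exact neg_add_cancel _
  exact (smul_eq_zero.mp h3).resolve_left two_ne_zero

variable [FiniteDimensional ℂ V]

/-- If `dim L_{f(i)} ≥ i` for all `i ≤ j`, there are linearly independent `b_i ∈ L_{f(i)}`. -/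
theorem exists_adapted (S : Set V) (f : ℕ → ℕ) (j : ℕ)
    (hdim : ∀ i ≤ j, i ≤ Module.finrank ℂ (L μ S (f i))) :
    ∃ b : Fin j → V, LinearIndependent ℂ b ∧ ∀ i : Fin j, b i ∈ L μ S (f (i.val + 1)) := by
  induction j with
  | zero => exact ⟨Fin.elim0, linearIndependent_empty_type, fun i => i.elim0⟩
  | succ j ih =>
    obtain ⟨b, hb, hbL⟩ := ih fun i hi => hdim i (by omega)
    obtain ⟨v, hv, hvb⟩ : ∃ v ∈ L μ S (f (j + 1)), v ∉ Submodule.span ℂ (Set.range b) := by
      by_contra hcon
      push Not at hcon
      have h1 : L μ S (f (j + 1)) ≤ Submodule.span ℂ (Set.range b) := hcon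
      have h2 := Submodule.finrank_mono h1
      have h3 := hdim (j + 1) le_rfl
      rw [finrank_span_eq_card hb, Fintype.card_fin] at h2
      omega
    refine ⟨Fin.snoc b v, ?_, ?_⟩
    · rw [linearIndependent_finSnoc]
      exact ⟨hb, hvb⟩
    · intro i
      refine Fin.lastCases ?_ (fun i => ?_) i
      · simp only [Fin.snoc_last, Fin.val_last]
        exact hv
      · simp only [Fin.snoc_castSucc, Fin.val_castSucc]
        exact hbL i

/-- The main estimate: `dim L_{F(j)}(S) ≥ j` for all `j ≤ k`. -/
theorem main_estimate (hn : 2 ≤ n) {A C : Finset (Fin n)}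
    (hμ : IsACCommutative A C μ) (S : Set V) (hS : Generates μ S) (j : ℕ) :
    j ≤ Module.finrank ℂ V → j ≤ Module.finrank ℂ (L μ S (genFib n (aParam A) j)) := by
  induction j using Nat.strong_induction_on with
  | _ j ih =>
  intro hj
  rcases j with _ | j
  · exact Nat.zero_le _
  set a := aParam A with ha
  have han : A.card ≤ n := by
    have := Finset.card_le_univ A
    rwa [Fintype.card_fin] at this
  have ha1 : 1 ≤ a := by
    rw [ha, aParam]
    split_ifs <;> omega
  have han' : a ≤ n := by
    rw [ha, aParam]
    split_ifs <;> omega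
  by_contra hcon
  push Not at hcon
  have hdim : ∀ i ≤ j, i ≤ Module.finrank ℂ (L μ S (genFib n a i)) :=
    fun i hi => ih i (by omega) (by omega)
  set U := L μ S (genFib n a j) with hU
  have hle : U ≤ L μ S (genFib n a (j + 1)) := L_mono μ S (genFib_mono_succ j)
  have hUdim : Module.finrank ℂ U = j := by
    have h1 := Submodule.finrank_mono hle
    have h2 := hdim j le_rfl
    rw [← hU] at h2
    omega
  have hUeq : U = L μ S (genFib n a (j + 1)) := by
    apply Submodule.eq_of_le_of_finrank_le hle
    omega
  obtain ⟨b, hb, hbL⟩ := exists_adapted μ S (genFib n a) j hdim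
  have hbU : Submodule.span ℂ (Set.range b) = U := by
    apply Submodule.eq_of_le_of_finrank_le
    · rw [Submodule.span_le]
      rintro _ ⟨i, rfl⟩
      exact L_mono μ S (genFib_mono (by omega)) (hbL i)
    · rw [finrank_span_eq_card hb, Fintype.card_fin, hUdim]
  -- products of elements of `U` lie in `U`
  have hprod : ∀ x : Fin n → V, (∀ r, x r ∈ U) → μ x ∈ U := by
    intro x hx
    refine map_mem_of_span μ (fun _ => Set.range b) U ?_ x (fun r => by rw [hbU]; exact hx r)
    intro y hy
    choose ι hι using hy
    have hyι : y = fun r => b (ι r) := funext fun r => (hι r).symm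
    by_cases hinj : Set.InjOn ι A
    · -- the length estimate
      rw [hUeq]
      have h1 : μ y ∈ L μ S (∑ r, genFib n a ((ι r).val + 1)) := by
        apply L_mul
        intro r
        rw [hyι]
        exact hbL (ι r)
      refine L_mono μ S ?_ h1
      have hcompl : ∑ r ∈ Aᶜ, genFib n a ((ι r).val + 1) ≤ (n - A.card) * genFib n a j := by
        calc ∑ r ∈ Aᶜ, genFib n a ((ι r).val + 1) ≤ ∑ r ∈ Aᶜ, genFib n a j :=
              Finset.sum_le_sum fun r _ => genFib_mono (by omega)
          _ = (n - A.card) * genFib n a j := by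
              rw [Finset.sum_const, Finset.card_compl, Fintype.card_fin, smul_eq_mul]
      have hAsum : ∑ r ∈ A, genFib n a ((ι r).val + 1) ≤
          ∑ i ∈ Finset.range A.card, genFib n a (j - i) := by
        have hinj' : Set.InjOn (fun r => (ι r).val) (A : Set (Fin n)) := by
          intro p hp q hq hpq
          exact hinj hp hq (Fin.ext hpq)
        have h2 := sum_le_top (genFib_mono (n := n) (a := a)) A.card j
          (A.image fun r => (ι r).val) (by
            intro t ht
            rw [Finset.mem_image] at ht
            obtain ⟨r, _, rfl⟩ := ht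
            exact (ι r).isLt) (Finset.card_image_of_injOn hinj')
        rwa [Finset.sum_image hinj'] at h2
      have hjpos : 1 ≤ j := by
        have : 0 < n := by omega
        have := (ι ⟨0, this⟩).isLt
        omega
      rw [← Finset.sum_add_sum_compl A]
      by_cases hA0 : A.card = 0
      · have haeq : a = 1 := by rw [ha, aParam, if_pos hA0]
        have hlt : a < j + 1 := by omega
        rw [genFib_of_lt hlt]
        rw [hA0] at hAsum hcompl
        simp only [Finset.range_zero, Finset.sum_empty] at hAsum
        simp only [Nat.add_sub_cancel]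
        have e : n - a + 1 = n - 0 := by omega
        rw [e]
        omega
      · have haeq : a = A.card := by rw [ha, aParam, if_neg hA0]
        have haj : a ≤ j := by
          rw [haeq]
          have h3 : (A.image fun r => (ι r)).card = A.card := Finset.card_image_of_injOn hinj
          have h4 := Finset.card_le_univ (A.image fun r => (ι r))
          rw [Fintype.card_fin] at h4
          omega
        rw [genFib_of_lt (show a < j + 1 by omega)]
        simp only [Nat.add_sub_cancel]
        rw [← haeq] at hAsum hcompl
        have h5 : ∑ i ∈ Finset.range a, genFib n a (j - i) =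
            genFib n a j + ∑ i : Fin (a - 1), genFib n a (j + 1 - 2 - i.val) := by
          obtain ⟨a', ha'⟩ : ∃ a', a = a' + 1 := ⟨a - 1, by omega⟩
          have h6 : ∑ i : Fin (a - 1), genFib n a (j + 1 - 2 - i.val) =
              ∑ i ∈ Finset.range (a - 1), genFib n a (j + 1 - 2 - i) :=
            Fin.sum_univ_eq_sum_range (fun i => genFib n a (j + 1 - 2 - i)) (a - 1)
          rw [h6]
          have h7 : Finset.range a = Finset.range (a - 1 + 1) := by
            congr 1
            omega
          rw [h7, Finset.sum_range_succ']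
          simp only [Nat.sub_zero]
          rw [add_comm]
          congr 1
          exact Finset.sum_congr rfl fun i _ => by congr 1; omega
        rw [h5] at hAsum
        have e : (n - a + 1) * genFib n a j = (n - a) * genFib n a j + genFib n a j := by ring
        rw [e]
        omega
    · -- two equal arguments in positions of `A`
      simp only [Set.InjOn] at hinj
      push Not at hinj
      obtain ⟨p, hp, q, hq, hpq, hne⟩ := hinj
      rw [map_eq_zero_of_eq μ hμ hp hq hne y (by rw [← hι p, ← hι q, hpq])]
      exact U.zero_mem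
  -- hence all words lie in `U`
  have hword : ∀ l w, IsWord μ S l w → w ∈ U := by
    intro l w hw
    induction hw with
    | basic s hs =>
      exact Submodule.subset_span ⟨1, genFib_pos j, IsWord.basic s hs⟩
    | op l w _ ihw => exact hprod w ihw
  have htop : (⊤ : Submodule ℂ V) ≤ U := by
    intro v _
    obtain ⟨i, hi⟩ := hS v
    refine (Submodule.span_le.mpr ?_ : L μ S i ≤ U) hi
    rintro w ⟨l, _, hw⟩
    exact hword l w hw
  have h8 := Submodule.finrank_mono htop
  rw [finrank_top, hUdim] at h8
  omega

end Lin

/-- For all `n ≥ 2`, all disjoint `A, C ⊆ {1, ..., n}` with `|A| ≠ 1` and all `k ≥ 1`, every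
`k`-dimensional `(A, C)`-commutative `n`-ary algebra over `ℂ` has length at most
`F_{N_{n,a}}(k)`. -/
theorem result (n : ℕ) (hn : 2 ≤ n) (A C : Finset (Fin n)) (_hAC : Disjoint A C)
    (_hA : A.card ≠ 1) (k : ℕ) (_hk : 1 ≤ k) (V : Type u) [AddCommGroup V] [Module ℂ V]
    [FiniteDimensional ℂ V] (hV : Module.finrank ℂ V = k)
    (μ : MultilinearMap ℂ (fun _ : Fin n => V) V) (hμ : IsACCommutative A C μ) :
    algLength μ ≤ (genFib n (aParam A) k : ℕ∞) := by
  refine iSup₂_le fun S hS => ?_
  have h1 := main_estimate μ hn hμ (S : Set V) hS k hV.ge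
  have h2 : L μ (S : Set V) (genFib n (aParam A) k) = ⊤ :=
    Submodule.eq_top_of_finrank_eq (le_antisymm (Submodule.finrank_le _) (by rw [hV]; exact h1))
  have h3 : setLength μ (S : Set V) ≤ genFib n (aParam A) k := Nat.sInf_le ⟨genFib_pos _, h2⟩
  exact_mod_cast h3

end Pool.Agent.Results.MP_dca5dd_al.LengthBound
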